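import Pool.Agent.Q115.DU4

/-!
# Poonen's conjecture for families with many members in terms of the generators

A union-closed family with `J` irreducible members has at most `2 ^ J` members (not counting the
empty set). We determine, up to a bounded part, the separating families with at least `2 ^ J / M`
members in which no element lies in more than half of the members: they are products of a family
with a bounded number of irreducible members and a power set.

The main step is `Pool.Agent.Q115.DU.twin_generators`: the elements of all generators but a bounded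
number lie in the same generators; here this means that these generators are one-element sets.
-/

namespace Pool.Agent.Results.MP_75f39d_co.DenseInGenerators

open Finset Pool.Agent.Q115.DU

/-- the members of `F` which are not the union of the members properly contained in them -/
def irreducibles (F : Finset (Finset ℕ)) : Finset (Finset ℕ) :=
  F.filter fun g => (F.filter fun S => S ⊂ g).sup id ≠ g

theorem sup_mem {F : Finset (Finset ℕ)} (hF : ∀ S ∈ F, ∀ T ∈ F, S ∪ T ∈ F)
    (P : Finset (Finset ℕ)) (hP : P ⊆ F) (hne : P.Nonempty) : P.sup id ∈ F := by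
  induction hne using Finset.Nonempty.cons_induction with
  | singleton a => simpa using hP (mem_singleton_self a)
  | cons a s ha hs ih =>
    rw [sup_cons]
    exact hF _ (hP (mem_cons_self _ _)) _ (ih fun x hx => hP (mem_cons_of_mem hx))

theorem unions_irr {F : Finset (Finset ℕ)} (hF : ∀ S ∈ F, ∀ T ∈ F, S ∪ T ∈ F) :
    unions (irreducibles F) = insert ∅ F := by
  ext A
  constructor
  · intro hA
    rw [mem_insert]
    rw [unions, mem_image] at hA
    obtain ⟨P, hP, rfl⟩ := hA
    rw [mem_powerset] at hP
    rcases P.eq_empty_or_nonempty with rfl | hne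
    · left; simp
    · right
      exact sup_mem hF P (hP.trans (filter_subset _ _)) hne
  · intro hA
    have key : ∀ n : ℕ, ∀ A ∈ F, A.card ≤ n → A ∈ unions (irreducibles F) := by
      intro n
      induction n with
      | zero =>
        intro A _ hA
        rw [mem_unions]
        intro x hx
        have : A = ∅ := card_eq_zero.1 (by omega)
        rw [this] at hx
        exact absurd hx (notMem_empty x)
      | succ n ih =>
        intro A hA hAn
        by_cases h : (F.filter fun S => S ⊂ A).sup id = A
        · rw [mem_unions]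
          intro x hx
          rw [← h, mem_sup] at hx
          obtain ⟨B, hB, hxB⟩ := hx
          rw [mem_filter] at hB
          have hBc := card_lt_card hB.2
          obtain ⟨g, hg, hxg, hgB⟩ := mem_unions.1 (ih B hB.1 (by omega)) x hxB
          exact ⟨g, hg, hxg, hgB.trans hB.2.subset⟩
        · rw [mem_unions]
          exact fun x hx => ⟨A, mem_filter.2 ⟨hA, h⟩, hx, subset_rfl⟩
    rcases mem_insert.1 hA with rfl | hA
    · rw [mem_unions]
      exact fun x hx => absurd hx (notMem_empty x)
    · exact key _ A hA le_rfl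

theorem irr_irr {F : Finset (Finset ℕ)} :
    ∀ g ∈ irreducibles F, g ∉ unions ((irreducibles F).erase g) := by
  intro g hg hgu
  rw [irreducibles, mem_filter] at hg
  apply hg.2
  apply subset_antisymm
  · intro x hx
    rw [mem_sup] at hx
    obtain ⟨S, hS, hx⟩ := hx
    exact (mem_filter.1 hS).2.subset hx
  · intro x hx
    obtain ⟨h, hh, hxh, hhg⟩ := mem_unions.1 hgu x hx
    obtain ⟨hne, hh⟩ := mem_erase.1 hh
    rw [irreducibles, mem_filter] at hh
    exact mem_sup.2 ⟨h, mem_filter.2 ⟨hh.1, hhg.ssubset_of_ne hne⟩, hxh⟩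

/-- Let `F` be a separating union-closed family with `J` irreducible members and at least
`2 ^ J / M` members, in which no element lies in more than half of the members. Then there is a set
`A` of at least `J - 10 ^ 10 M ^ 2 (⌊log₂ M⌋ + 1)` elements such that `{x} ∈ F` for all `x ∈ A` and
membership of `S` in `F` only depends on `S \ A`, that is, `F` is the product of the family of its
members disjoint from `A` and the power set of `A`. -/
theorem result (F : Finset (Finset ℕ)) (hF : ∀ S ∈ F, ∀ T ∈ F, S ∪ T ∈ F)
    (hsep : ∀ x ∈ F.sup id, ∀ y ∈ F.sup id, x ≠ y →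
      ∃ S ∈ F, (x ∈ S ∧ y ∉ S) ∨ (y ∈ S ∧ x ∉ S))
    (M : ℕ) (hM : 2 ^ (irreducibles F).card ≤ M * F.card)
    (hhalf : ∀ x, 2 * (F.filter fun S => x ∈ S).card ≤ F.card) :
    ∃ A : Finset ℕ, (irreducibles F).card ≤ A.card + 10 ^ 10 * M ^ 2 * (Nat.log 2 M + 1) ∧
      (∀ x ∈ A, {x} ∈ F) ∧ ∀ S : Finset ℕ, S ∈ F ↔ S \ A ∈ F := by
  have hM1 : 1 ≤ M := by
    by_contra hcon
    have : M = 0 := by omega
    rw [this, Nat.zero_mul] at hM
    have := Nat.one_le_two_pow (n := (irreducibles F).card)
    omega
  set G := irreducibles F with hG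
  have hGF : G ⊆ F := filter_subset _ _
  have hU : unions G = insert ∅ F := unions_irr hF
  have hcard : F.card ≤ (unions G).card := by
    rw [hU]; exact card_le_card (subset_insert _ _)
  have hfil : ∀ x, (unions G).filter (fun S => x ∈ S) = F.filter fun S => x ∈ S := by
    intro x
    rw [hU, filter_insert, if_neg (notMem_empty x)]
  have hhalf' : ∀ x, 2 * ((unions G).filter fun S => x ∈ S).card ≤ (unions G).card := by
    intro x
    rw [hfil]
    exact (hhalf x).trans hcard
  obtain ⟨G0, hG0, hG0c, htw⟩ := twin_generators G (M := M) (D := Nat.log 2 M + 1)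
    (hM.trans (Nat.mul_le_mul_left _ hcard)) (Nat.lt_pow_succ_log_self (by norm_num) M) hhalf'
  have hG0c' : G0.card ≤ 10 ^ 10 * M ^ 2 * (Nat.log 2 M + 1) := hG0c.trans (bnd_le hM1).le
  have hdisj : ∀ y ∈ G, y ∉ G0 → ∀ g ∈ G, g ≠ y → Disjoint g y := fun y hy hy0 =>
    disjoint_of_twin G irr_irr hhalf' hy (htw y hy hy0)
  have hne : ∀ g ∈ G, g.Nonempty := by
    intro g hg
    rw [nonempty_iff_ne_empty]
    rintro rfl
    rw [hG, irreducibles, mem_filter] at hg
    apply hg.2
    apply subset_antisymm
    · intro x hx
      rw [mem_sup] at hx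
      obtain ⟨S, hS, hx⟩ := hx
      exact (mem_filter.1 hS).2.subset hx
    · exact empty_subset _
  -- the exceptional generators are one-element sets
  have hsing : ∀ y ∈ G, y ∉ G0 → ∃ x, y = {x} := by
    intro y hy hy0
    obtain ⟨x, hx⟩ := hne y hy
    refine ⟨x, ?_⟩
    apply subset_antisymm
    · intro z hz
      rw [mem_singleton]
      by_contra hzx
      have hin : ∀ w ∈ y, w ∈ F.sup id := fun w hw => mem_sup.2 ⟨y, hGF hy, hw⟩
      obtain ⟨S, hS, h⟩ := hsep z (hin z hz) x (hin x hx) hzx
      have hSU : S ∈ unions G := by rw [hU]; exact mem_insert_of_mem hS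
      have hboth : ∀ w ∈ y, ∀ w' ∈ y, w ∈ S → w' ∈ S := by
        intro w hw w' hw' hwS
        obtain ⟨g, hg, hwg, hgS⟩ := mem_unions.1 hSU w hwS
        exact hgS (htw y hy hy0 w hw w' hw' g hg hwg)
      rcases h with ⟨h1, h2⟩ | ⟨h1, h2⟩
      · exact h2 (hboth z hz x hx h1)
      · exact h2 (hboth x hx z hz h1)
    · exact singleton_subset_iff.2 hx
  -- if there are such generators, the empty set is a member
  have hempty : ∀ y ∈ G, y ∉ G0 → ∅ ∈ F := by
    intro y hy hy0
    by_contra h0
    obtain ⟨x, hx⟩ := hne y hy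
    have h1 := half_of_twin G hy (htw y hy hy0) hx
    have h2 := card_filter_add_card_filter_not (s := unions G) (fun A => x ∈ A)
    have h3 := hhalf x
    rw [hfil] at h1 h2
    have h4 : (unions G).card = F.card + 1 := by
      rw [hU, card_insert_of_notMem h0]
    omega
  set A := (G \ G0).sup id with hA
  have hmemA : ∀ x, x ∈ A ↔ {x} ∈ G \ G0 := by
    intro x
    rw [hA, mem_sup]
    constructor
    · rintro ⟨y, hy, hxy⟩
      obtain ⟨hyG, hy0⟩ := mem_sdiff.1 hy
      obtain ⟨z, rfl⟩ := hsing y hyG hy0
      rw [id, mem_singleton] at hxy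
      rw [hxy]
      exact hy
    · intro h
      exact ⟨_, h, mem_singleton_self x⟩
  refine ⟨A, ?_, fun x hx => hGF (mem_sdiff.1 ((hmemA x).1 hx)).1, fun S => ?_⟩
  · have h1 : (G \ G0).card ≤ A.card := by
      have h2 : G \ G0 ⊆ A.image fun x => ({x} : Finset ℕ) := by
        intro y hy
        obtain ⟨hyG, hy0⟩ := mem_sdiff.1 hy
        obtain ⟨z, rfl⟩ := hsing y hyG hy0
        exact mem_image.2 ⟨z, (hmemA z).2 hy, rfl⟩
      exact (card_le_card h2).trans card_image_le
    have h3 := card_sdiff_add_card_eq_card hG0
    omega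
  · by_cases hAe : A = ∅
    · rw [hAe, sdiff_empty]
    · obtain ⟨a, ha⟩ := nonempty_iff_ne_empty.2 hAe
      have ha' := mem_sdiff.1 ((hmemA a).1 ha)
      have h0 : ∅ ∈ F := hempty _ ha'.1 ha'.2
      have hUF : unions G = F := by rw [hU, insert_eq_of_mem h0]
      rw [← hUF, mem_unions, mem_unions]
      constructor
      · intro hS x hx
        obtain ⟨hxS, hxA⟩ := mem_sdiff.1 hx
        obtain ⟨g, hg, hxg, hgS⟩ := hS x hxS
        refine ⟨g, hg, hxg, fun z hz => mem_sdiff.2 ⟨hgS hz, fun hzA => ?_⟩⟩
        have hzA' := mem_sdiff.1 ((hmemA z).1 hzA)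
        by_cases hgz : g = {z}
        · rw [hgz, mem_singleton] at hxg
          exact hxA (hxg ▸ hzA)
        · have := hdisj _ hzA'.1 hzA'.2 g hg hgz
          exact (disjoint_left.1 this) hz (mem_singleton_self z)
      · intro hS x hx
        by_cases hxA : x ∈ A
        · exact ⟨{x}, (mem_sdiff.1 ((hmemA x).1 hxA)).1, mem_singleton_self x,
            singleton_subset_iff.2 hx⟩
        · obtain ⟨g, hg, hxg, hgS⟩ := hS x (mem_sdiff.2 ⟨hx, hxA⟩)
          exact ⟨g, hg, hxg, hgS.trans sdiff_subset⟩

end Pool.Agent.Results.MP_75f39d_co.DenseInGenerators
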